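import Mathlib
import Pool.Agent.Y982.HW.Iter

/-!
# Howitt-Warren flows of finite speed have no fluctuation limit for point probabilities

For every drift and every finite characteristic measure `ν` with `∫ ν(dq) / (q (1 - q)) < ∞`, the
kernel `K_{0,t}(0, ·)` of the Howitt-Warren flow gives mass zero to `[y, y+1]` with probability
bounded away from zero, uniformly in `y` and in large `t`. Hence for no `x` and for no deterministic
centering and scaling does `-log K_{0,t}(0, [tx, tx+1])` converge in law to a law on the real line;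
in particular the Tracy-Widom limit asked for in the question fails for all these flows.
-/

open MeasureTheory ProbabilityTheory Filter Topology
open scoped NNReal ENNReal
open Pool.Agent.Y982.HW

namespace Pool.Agent.Results.MP_b213bc_pr.FiniteSpeedNoLimit

/-- The class of measures is not empty: the unit mass at `1/2`. -/
theorem exists_measure : ∃ ν : Measure unitInterval, IsFiniteMeasure ν ∧ 0 < ν (Set.Ioo 0 1) ∧
    FiniteSpeed ν := by
  set h : unitInterval := ⟨1 / 2, by norm_num, by norm_num⟩ with hh
  refine ⟨Measure.dirac h, inferInstance, ?_, ?_⟩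
  · have hm : h ∈ Set.Ioo (0 : unitInterval) 1 := by
      constructor
      · rw [← Subtype.coe_lt_coe]
        change (0 : ℝ) < 1 / 2
        norm_num
      · rw [← Subtype.coe_lt_coe]
        change (1 / 2 : ℝ) < 1
        norm_num
    rw [Measure.dirac_apply_of_mem hm]
    exact one_pos
  · have hm : Measurable fun q : unitInterval => (ENNReal.ofReal ((q : ℝ) * (1 - (q : ℝ))))⁻¹ := by
      fun_prop
    unfold FiniteSpeed
    rw [lintegral_dirac' h hm, ENNReal.inv_lt_top, ENNReal.ofReal_pos]
    change (0 : ℝ) < 1 / 2 * (1 - 1 / 2)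
    norm_num

/-- There are finite measures `ν` on `[0,1]` with `ν((0,1)) > 0` and `∫ ν(dq) / (q (1-q)) < ∞`,
and for each such measure, each drift `β` and each Howitt-Warren flow `K`: the probability that
`K_{0,t}(0, [y, y+1]) = 0` is bounded away from zero uniformly in `y` and in large `t`; and for no
`x` (in particular for no `x ≠ β`) and no normalisation `a`, `b` (in particular not for `a(t) = c t`
and `b(t) = σ t^{1/3}`, `σ ≠ 0`) does `(-log K_{0,t}(0, [tx, tx+1]) - a(t)) / b(t)` converge in law
to a probability law on the real line (in particular not to the GUE Tracy-Widom law). -/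
theorem result :
    (∃ ν : Measure unitInterval, IsFiniteMeasure ν ∧ 0 < ν (Set.Ioo 0 1) ∧ FiniteSpeed ν) ∧
    ∀ (β : ℝ) (ν : Measure unitInterval), IsFiniteMeasure ν → FiniteSpeed ν →
      ∀ (Ω : Type*) [MeasurableSpace Ω] (P : Measure Ω) [IsProbabilityMeasure P]
        (K : ℝ → ℝ → Kernel (Ω × ℝ) ℝ), IsHowittWarren β ν P K →
        (∃ δ : ℝ≥0∞, 0 < δ ∧ ∃ T : ℝ, ∀ t ≥ T, ∀ y : ℝ,
          δ ≤ P {ω | K 0 t (ω, 0) (Set.Icc y (y + 1)) = 0}) ∧
        ∀ (x : ℝ) (a b : ℝ → ℝ), (∀ᶠ t in atTop, b t ≠ 0) →
          ∀ (χ : Measure ℝ), IsProbabilityMeasure χ →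
            ¬ ConvergesInLaw P (normalised K x a b) χ := by
  refine ⟨exists_measure, ?_⟩
  intro β ν hfin hν Ω _ P _ K hK
  have h := flow_zero (P := P) hK hν
  refine ⟨h, ?_⟩
  intro x a b hb χ hχ
  obtain ⟨δ, hδ, T, hT⟩ := h
  refine not_conv hK.toIsKernelFlow hb hδ ?_ χ
  filter_upwards [eventually_ge_atTop T] with t ht
  exact hT t ht (t * x)

end Pool.Agent.Results.MP_b213bc_pr.FiniteSpeedNoLimit
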